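import Mathlib
import Pool.Agent.H.MP_b7167f_an.Main
import Pool.Agent.H.MP_b7167f_an.L4c

/-!
Weighted `L⁴` estimate for the extension of the indicator of a set of rough frequencies.
-/

namespace Pool.Agent.H.MP_b7167f_an.IR

open MeasureTheory Complex ComplexConjugate Real Set ENNReal Pool.Agent.H.MP_b7167f_an

/-- the indicator function -/
noncomputable def ib {k : ℕ} (B : Set (Fin k → ℝ)) : (Fin k → ℝ) → ℂ := B.indicator (fun _ => 1)

lemma ib_meas {k : ℕ} {B : Set (Fin k → ℝ)} (hB : MeasurableSet B) : Measurable (ib B) :=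
  measurable_const.indicator hB

lemma ib_norm {k : ℕ} (B : Set (Fin k → ℝ)) (ξ : Fin k → ℝ) : ‖ib B ξ‖ ≤ 1 := by
  unfold ib
  by_cases h : ξ ∈ B
  · rw [indicator_of_mem h, norm_one]
  · rw [indicator_of_notMem h, norm_zero]
    exact zero_le_one

lemma E_ib {k : ℕ} {B : Set (Fin k → ℝ)} (hB : MeasurableSet B) (p : (Fin k → ℝ) × ℝ) :
    E k (ib B) p = EI (ib (B ∩ Icc (-1) 1)) p := by
  rw [E_def]
  unfold EI cube
  rw [← integral_indicator measurableSet_Icc]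
  congr 1
  ext ξ
  unfold ib
  have e : chr p (par ξ) = ph2 p ξ := by
    unfold chr par ph2
    rfl
  by_cases h1 : ξ ∈ Icc (-1 : Fin k → ℝ) 1
  · rw [indicator_of_mem h1, e]
    by_cases h2 : ξ ∈ B
    · rw [indicator_of_mem h2, indicator_of_mem (show ξ ∈ B ∩ Icc (-1) 1 from ⟨h2, h1⟩)]
    · rw [indicator_of_notMem h2, indicator_of_notMem (fun h => h2 h.1)]
  · rw [indicator_of_notMem h1, indicator_of_notMem (fun h => h1 h.2), zero_mul]

lemma ib_L2 {k : ℕ} {B : Set (Fin k → ℝ)} (hB : MeasurableSet B) :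
    ∫⁻ ξ : Fin k → ℝ, ENNReal.ofReal (‖ib (B ∩ Icc (-1) 1) ξ‖ ^ 2) = cube k B := by
  unfold cube
  rw [Measure.restrict_apply hB, ← lintegral_indicator_one (hB.inter measurableSet_Icc)]
  apply lintegral_congr
  intro ξ
  unfold ib
  by_cases h : ξ ∈ B ∩ Icc (-1) 1
  · rw [indicator_of_mem h, indicator_of_mem h]
    simp
  · rw [indicator_of_notMem h, indicator_of_notMem h]
    simp

lemma E_ib_L2 {k : ℕ} {B : Set (Fin k → ℝ)} (hB : MeasurableSet B) (t : ℝ) :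
    ∫⁻ x : Fin k → ℝ, ‖E k (ib B) (x, t)‖ₑ ^ 2 ≤ cube k B := by
  refine (E_L2 k (ib_meas hB) (ib_norm B) t).trans ?_
  have h1 : ∀ ξ, ‖ib B ξ‖ ^ 2 = B.indicator (fun _ => (1 : ℝ)) ξ := by
    intro ξ
    unfold ib
    by_cases h : ξ ∈ B
    · rw [indicator_of_mem h, indicator_of_mem h]; simp
    · rw [indicator_of_notMem h, indicator_of_notMem h]; simp
  simp_rw [h1]
  rw [integral_indicator hB, integral_const, smul_eq_mul, mul_one]
  rw [Measure.real, Measure.restrict_apply_univ]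
  exact ENNReal.ofReal_toReal_le

lemma E_ib_sup {k : ℕ} (B : Set (Fin k → ℝ)) (p : (Fin k → ℝ) × ℝ) :
    ‖E k (ib B) p‖ ^ 2 ≤ 4 ^ k := by
  have h := tr_bound (μ := cube k) (Φ := par) (ib_norm B) p
  rw [cube_real_univ, one_mul] at h
  have e : (4 : ℝ) ^ k = (2 ^ k) ^ 2 := by
    rw [← pow_mul, mul_comm, pow_mul]
    norm_num
  rw [e]
  exact pow_le_pow_left₀ (norm_nonneg _) h 2

/-- The part `|t| < 1`. -/
lemma near_part {k : ℕ} (β : ℝ) {B : Set (Fin k → ℝ)} (hB : MeasurableSet B) :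
    ∫⁻ t in {t : ℝ | |t| < 1}, ∫⁻ y : Fin k → ℝ,
      ENNReal.ofReal (|t| ^ (-β)) * ‖E k (ib B) (y, t)‖ₑ ^ 4 ≤
    (∫⁻ t in {t : ℝ | |t| < 1}, ENNReal.ofReal (|t| ^ (-β))) * ENNReal.ofReal (4 ^ k) * cube k B := by
  have hslice : ∀ t : ℝ, ∫⁻ y : Fin k → ℝ,
      ENNReal.ofReal (|t| ^ (-β)) * ‖E k (ib B) (y, t)‖ₑ ^ 4 ≤
        ENNReal.ofReal (|t| ^ (-β)) * (ENNReal.ofReal (4 ^ k) * cube k B) := by
    intro t
    rw [lintegral_const_mul' _ _ ENNReal.ofReal_ne_top]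
    gcongr
    calc ∫⁻ y : Fin k → ℝ, ‖E k (ib B) (y, t)‖ₑ ^ 4
        ≤ ∫⁻ y : Fin k → ℝ, ENNReal.ofReal (4 ^ k) * ‖E k (ib B) (y, t)‖ₑ ^ 2 := by
          apply lintegral_mono
          intro y
          have : ‖E k (ib B) (y, t)‖ₑ ^ 4 =
              ‖E k (ib B) (y, t)‖ₑ ^ 2 * ‖E k (ib B) (y, t)‖ₑ ^ 2 := by
            rw [← pow_add]
          simp only
          rw [this]
          gcongr
          rw [← ofReal_norm, ← ENNReal.ofReal_pow (norm_nonneg _)]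
          exact ENNReal.ofReal_le_ofReal (E_ib_sup B (y, t))
      _ ≤ ENNReal.ofReal (4 ^ k) * cube k B := by
          rw [lintegral_const_mul' _ _ ENNReal.ofReal_ne_top]
          gcongr
          exact E_ib_L2 hB t
  refine (lintegral_mono hslice).trans (le_of_eq ?_)
  have hc : ENNReal.ofReal (4 ^ k) * cube k B ≠ ⊤ := by
    refine ENNReal.mul_ne_top ENNReal.ofReal_ne_top ?_
    have : IsFiniteMeasure (cube k) := by
      constructor
      rw [cube, Measure.restrict_apply_univ]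
      exact volume_cube_lt k
    exact measure_ne_top _ _
  rw [lintegral_mul_const' _ _ hc, mul_assoc]

/-- The part `|t| ≥ 1`. -/
lemma far_part (k : ℕ) (hk : 1 ≤ k) {β : ℝ} (hβ0 : 0 < β) (hβ1 : β < 1) :
    ∃ C : ℝ≥0∞, C ≠ ⊤ ∧ ∀ B : Set (Fin k → ℝ), MeasurableSet B →
      ∫⁻ p in {p : (Fin k → ℝ) × ℝ | 1 ≤ |p.2|},
        ENNReal.ofReal (|p.2| ^ (-β)) * ‖E k (ib B) p‖ₑ ^ 4 ≤ C * cube k B := by
  obtain ⟨cβ, hc0, hstrip⟩ := L4_strip (ι := Fin k) (β := β / 2) (by linarith) (by linarith)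
  set rr : Fin k := ⟨0, hk⟩ with hrr
  set V1 : ℝ≥0∞ := volume (Bx (0 : Fin k → ℝ) (1 + ej rr)) with hV1
  set V2 : ℝ≥0∞ := volume (Bx (0 : Fin k → ℝ) ((2 : ℝ) • (1 : Fin k → ℝ) + ej rr)) with hV2
  have hV1t : V1 ≠ ⊤ := (Bx_volume_lt _ _).ne
  have hV2t : V2 ≠ ⊤ := (Bx_volume_lt _ _).ne
  set r : ℝ≥0∞ := ENNReal.ofReal (2 ^ (-(β / 2))) with hr
  have hr1 : r < 1 := by
    rw [hr, ← ENNReal.ofReal_one]
    apply (ENNReal.ofReal_lt_ofReal_iff one_pos).2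
    exact Real.rpow_lt_one_of_one_lt_of_neg (by norm_num) (by linarith)
  set K : ℝ≥0∞ := V1 * (V2 * ENNReal.ofReal cβ) with hK
  have hKt : K ≠ ⊤ := ENNReal.mul_ne_top hV1t (ENNReal.mul_ne_top hV2t ENNReal.ofReal_ne_top)
  refine ⟨K * (1 - r)⁻¹, ENNReal.mul_ne_top hKt (ENNReal.inv_ne_top.2 (tsub_pos_of_lt hr1).ne'), ?_⟩
  intro B hB
  have hcov : {p : (Fin k → ℝ) × ℝ | 1 ≤ |p.2|} ⊆ ⋃ n : ℕ, strip (Fin k) ((2 : ℝ) ^ n) := by
    intro p hp
    have hp' : 1 ≤ |p.2| := hp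
    obtain ⟨n, hn1, hn2⟩ := exists_nat_pow_near hp' (by norm_num : (1 : ℝ) < 2)
    refine mem_iUnion.2 ⟨n, hn1, ?_⟩
    rw [pow_succ] at hn2
    linarith
  have hterm : ∀ n : ℕ, ∫⁻ p in strip (Fin k) ((2 : ℝ) ^ n),
      ENNReal.ofReal (|p.2| ^ (-β)) * ‖E k (ib B) p‖ₑ ^ 4 ≤ K * cube k B * r ^ n := by
    intro n
    have hT : (0 : ℝ) < 2 ^ n := by positivity
    have h1 := hstrip (2 ^ n) hT 0 1 rr (ib (B ∩ Icc (-1) 1)) 1
      (ib_meas (hB.inter measurableSet_Icc)) (ib_norm _) (by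
        intro ξ hξ
        unfold ib
        rw [indicator_of_notMem]
        rintro ⟨-, h2⟩
        apply hξ
        rw [mem_Bx]
        intro i
        rw [Pi.zero_apply, sub_zero, Pi.one_apply, abs_le]
        exact ⟨h2.1 i, h2.2 i⟩)
    rw [ib_L2 hB] at h1
    calc ∫⁻ p in strip (Fin k) ((2 : ℝ) ^ n), ENNReal.ofReal (|p.2| ^ (-β)) * ‖E k (ib B) p‖ₑ ^ 4
        ≤ ∫⁻ p in strip (Fin k) ((2 : ℝ) ^ n), ENNReal.ofReal (((2 : ℝ) ^ n) ^ (-β)) *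
          ENNReal.ofReal (‖EI (ib (B ∩ Icc (-1) 1)) p‖ ^ 4) := by
          apply setLIntegral_mono' (strip_meas _)
          intro p hp
          rw [E_ib hB, ← ofReal_norm, ← ENNReal.ofReal_pow (norm_nonneg _)]
          exact mul_le_mul' (ENNReal.ofReal_le_ofReal
            (Real.rpow_le_rpow_of_nonpos hT hp.1 (neg_nonpos.2 hβ0.le))) le_rfl
      _ = ENNReal.ofReal (((2 : ℝ) ^ n) ^ (-β)) * ∫⁻ p in strip (Fin k) ((2 : ℝ) ^ n),
          ENNReal.ofReal (‖EI (ib (B ∩ Icc (-1) 1)) p‖ ^ 4) :=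
          lintegral_const_mul' _ _ ENNReal.ofReal_ne_top
      _ ≤ ENNReal.ofReal (((2 : ℝ) ^ n) ^ (-β)) * (ENNReal.ofReal (1 ^ 2) * cube k B *
          (V1 * (V2 * ENNReal.ofReal (cβ * ((2 : ℝ) ^ n) ^ (β / 2))))) := by
          gcongr
      _ = K * cube k B * (ENNReal.ofReal (((2 : ℝ) ^ n) ^ (-β)) *
          ENNReal.ofReal (((2 : ℝ) ^ n) ^ (β / 2))) := by
          rw [ENNReal.ofReal_mul hc0, hK]
          simp only [one_pow, ENNReal.ofReal_one, one_mul]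
          ring
      _ = K * cube k B * r ^ n := by
          congr 1
          rw [← ENNReal.ofReal_mul (by positivity), ← Real.rpow_add hT, hr,
            ← ENNReal.ofReal_pow (by positivity)]
          congr 1
          rw [← Real.rpow_natCast, ← Real.rpow_natCast, ← Real.rpow_mul (by norm_num),
            ← Real.rpow_mul (by norm_num)]
          congr 1
          ring
  calc ∫⁻ p in {p : (Fin k → ℝ) × ℝ | 1 ≤ |p.2|},
        ENNReal.ofReal (|p.2| ^ (-β)) * ‖E k (ib B) p‖ₑ ^ 4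
      ≤ ∫⁻ p in ⋃ n : ℕ, strip (Fin k) ((2 : ℝ) ^ n),
        ENNReal.ofReal (|p.2| ^ (-β)) * ‖E k (ib B) p‖ₑ ^ 4 := lintegral_mono_set hcov
    _ ≤ ∑' n : ℕ, ∫⁻ p in strip (Fin k) ((2 : ℝ) ^ n),
        ENNReal.ofReal (|p.2| ^ (-β)) * ‖E k (ib B) p‖ₑ ^ 4 := lintegral_iUnion_le _ _
    _ ≤ ∑' n : ℕ, K * cube k B * r ^ n := ENNReal.tsum_le_tsum hterm
    _ = K * (1 - r)⁻¹ * cube k B := by
        rw [ENNReal.tsum_mul_left, ENNReal.tsum_geometric]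
        ring

lemma L4_ib (k : ℕ) (hk : 1 ≤ k) {β : ℝ} (hβ0 : 0 < β) (hβ1 : β < 1) :
    ∃ C : ℝ≥0∞, C ≠ ⊤ ∧ ∀ B : Set (Fin k → ℝ), MeasurableSet B →
      ∫⁻ p : (Fin k → ℝ) × ℝ, ENNReal.ofReal (|p.2| ^ (-β)) * ‖E k (ib B) p‖ₑ ^ 4 ≤
        C * cube k B := by
  obtain ⟨C, hC, hfar⟩ := far_part k hk hβ0 hβ1
  set C1 : ℝ≥0∞ := (∫⁻ t in {t : ℝ | |t| < 1}, ENNReal.ofReal (|t| ^ (-β))) *
    ENNReal.ofReal (4 ^ k) with hC1
  refine ⟨C1 + C, ENNReal.add_ne_top.2 ⟨ENNReal.mul_ne_top (lint_near hβ1).ne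
    ENNReal.ofReal_ne_top, hC⟩, ?_⟩
  intro B hB
  have hm : Measurable fun p : (Fin k → ℝ) × ℝ =>
      ENNReal.ofReal (|p.2| ^ (-β)) * ‖E k (ib B) p‖ₑ ^ 4 := by
    have h1 : Measurable fun p : (Fin k → ℝ) × ℝ => ENNReal.ofReal (|p.2| ^ (-β)) := by fun_prop
    exact h1.mul (((E_meas k (ib_meas hB)).enorm).pow_const 4)
  have hsplit : (univ : Set ((Fin k → ℝ) × ℝ)) =
      (univ ×ˢ {t : ℝ | |t| < 1}) ∪ {p : (Fin k → ℝ) × ℝ | 1 ≤ |p.2|} := by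
    ext p
    simp [lt_or_ge]
  rw [← setLIntegral_univ, hsplit, add_mul]
  refine (lintegral_union_le _ _ _).trans (add_le_add ?_ (hfar B hB))
  refine le_trans (le_of_eq ?_) (near_part β hB)
  rw [Measure.volume_eq_prod, ← Measure.prod_restrict, lintegral_prod_symm' _ hm,
    Measure.restrict_univ]

end Pool.Agent.H.MP_b7167f_an.IR
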