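import Mathlib
import Pool.Agent.H.MP_b7167f_an.IR.L4B

/-!
Weighted square function estimates for coefficients supported in a set of rough frequencies.
-/

namespace Pool.Agent.H.MP_b7167f_an.IR

open MeasureTheory Complex ComplexConjugate Real Set ENNReal Pool.Agent.H.MP_b7167f_an

variable {ι : Type*} {k : ℕ}

instance instFiniteCube (k : ℕ) : IsFiniteMeasure (cube k) := by
  constructor
  rw [cube, Measure.restrict_apply_univ]
  exact volume_cube_lt k

lemma tr_kap_B {w : ι → ℝ} (hw : ∀ j, 1 ≤ w j) {c : ι → (Fin k → ℝ) → ℂ}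
    (hc : ∀ j, Measurable (c j)) {J : Finset ι} {A2 : ℝ}
    (hA : ∀ η, ∑ j ∈ J, w j * ‖c j η‖ ^ 2 ≤ A2) {B : Set (Fin k → ℝ)}
    (hsupp : ∀ j ∈ J, ∀ η ∉ B, c j η = 0) (p : (Fin k → ℝ) × ℝ) :
    tr (((cube k).restrict B).prod ((cube k).restrict B)) dif (kap w c J) p =
      (N2 k w c J p : ℂ) := by
  rw [← tr_kap hw hc hA p]
  unfold tr
  rw [Measure.prod_restrict]
  apply setIntegral_eq_integral_of_forall_compl_eq_zero
  intro z hz
  have h0 : kap w c J z = 0 := by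
    unfold kap
    apply Finset.sum_eq_zero
    intro j hj
    by_cases h1 : z.1 ∈ B
    · have h2 : z.2 ∉ B := fun h2 => hz ⟨h1, h2⟩
      rw [hsupp j hj z.2 h2, map_zero, mul_zero, mul_zero]
    · rw [hsupp j hj z.1 h1, zero_mul, mul_zero]
  rw [h0, zero_mul]

lemma tr_one_B {B : Set (Fin k → ℝ)} (hB : MeasurableSet B) (p : (Fin k → ℝ) × ℝ) :
    tr (((cube k).restrict B).prod ((cube k).restrict B)) dif (fun _ => 1) p =
      ((‖E k (ib B) p‖ ^ 2 : ℝ) : ℂ) := by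
  unfold tr
  have h1 : ∀ z : (Fin k → ℝ) × (Fin k → ℝ), 1 * chr p (dif z) =
      ((1 * chr p (par z.1)) * conj (1 * chr p (par z.2))) := by
    intro z
    rw [chr_dif, one_mul, one_mul, one_mul]
  simp_rw [h1]
  rw [integral_prod_mul (fun η => 1 * chr p (par η))
      (fun η => conj (1 * chr p (par η))), integral_conj]
  have h2 : ∫ η, 1 * chr p (par η) ∂((cube k).restrict B) = E k (ib B) p := by
    rw [E_def, ← integral_indicator hB]
    congr 1
    ext η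
    unfold ib
    by_cases h : η ∈ B
    · rw [indicator_of_mem h, indicator_of_mem h]
    · rw [indicator_of_notMem h, indicator_of_notMem h, zero_mul]
  rw [h2, Complex.mul_conj']
  push_cast
  rfl

lemma N2_L4_B {w : ι → ℝ} (hw : ∀ j, 1 ≤ w j) {c : ι → (Fin k → ℝ) → ℂ}
    (hc : ∀ j, Measurable (c j)) {J : Finset ι} {A2 : ℝ}
    (hA : ∀ η, ∑ j ∈ J, w j * ‖c j η‖ ^ 2 ≤ A2) {B : Set (Fin k → ℝ)} (hB : MeasurableSet B)
    (hsupp : ∀ j ∈ J, ∀ η ∉ B, c j η = 0) {β : ℝ} (hβ : 0 < β) :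
    ∫⁻ p : (Fin k → ℝ) × ℝ, ENNReal.ofReal (|p.2| ^ (-β)) * ENNReal.ofReal (N2 k w c J p) ^ 2 ≤
      ENNReal.ofReal (A2 ^ 2) *
        ∫⁻ p : (Fin k → ℝ) × ℝ, ENNReal.ofReal (|p.2| ^ (-β)) * ‖E k (ib B) p‖ₑ ^ 4 := by
  have h := maj_pow (μ := ((cube k).restrict B).prod ((cube k).restrict B)) hβ measurable_dif
    (kap_meas (w := w) hc J) (kap_bound hw hA)
  simp_rw [tr_kap_B hw hc hA hsupp, tr_one_B hB] at h
  have e1 : ∀ x : ℝ, 0 ≤ x → ‖(x : ℂ)‖ₑ = ENNReal.ofReal x := by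
    intro x hx
    rw [← ofReal_norm, Complex.norm_real, Real.norm_of_nonneg hx]
  have e2 : ∀ p, ‖((N2 k w c J p : ℝ) : ℂ)‖ₑ ^ 2 = ENNReal.ofReal (N2 k w c J p) ^ 2 := by
    intro p
    rw [e1 _ (N2_nonneg hw c J p)]
  have e3 : ∀ p : (Fin k → ℝ) × ℝ, ‖((‖E k (ib B) p‖ ^ 2 : ℝ) : ℂ)‖ₑ ^ 2 =
      ‖E k (ib B) p‖ₑ ^ 4 := by
    intro p
    rw [e1 _ (by positivity), ENNReal.ofReal_pow (norm_nonneg _), ofReal_norm, ← pow_mul]
  simp_rw [e2, e3] at h
  exact h

lemma N2_L2_B {w : ι → ℝ} (hw : ∀ j, 1 ≤ w j) {c : ι → (Fin k → ℝ) → ℂ}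
    (hc : ∀ j, Measurable (c j)) {J : Finset ι} {A2 : ℝ} (hA0 : 0 ≤ A2)
    (hA : ∀ η, ∑ j ∈ J, w j * ‖c j η‖ ^ 2 ≤ A2) {B : Set (Fin k → ℝ)} (hB : MeasurableSet B)
    (hsupp : ∀ j ∈ J, ∀ η ∉ B, c j η = 0) (t : ℝ) :
    ∫⁻ y : Fin k → ℝ, ENNReal.ofReal (N2 k w c J (y, t)) ≤ ENNReal.ofReal A2 * cube k B := by
  have hw0 : ∀ j, 0 ≤ w j := fun j => le_trans zero_le_one (hw j)
  have hI : ∀ j ∈ J, Integrable (fun η => w j * ‖c j η‖ ^ 2) (cube k) := by
    intro j hj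
    refine Integrable.of_bound (((hc j).norm.pow_const 2).const_mul (w j)).aestronglyMeasurable
      (w j * (√A2) ^ 2) ?_
    · refine Filter.Eventually.of_forall fun η => ?_
      have := hw0 j
      rw [Real.norm_of_nonneg (by positivity)]
      apply mul_le_mul_of_nonneg_left _ (hw0 j)
      exact pow_le_pow_left₀ (norm_nonneg _) (c_bound hw hA hj η) 2
  have h1 : ∀ y : Fin k → ℝ, ENNReal.ofReal (N2 k w c J (y, t)) =
      ∑ j ∈ J, ENNReal.ofReal (w j) * ‖E k (c j) (y, t)‖ₑ ^ 2 := by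
    intro y
    unfold N2
    rw [ENNReal.ofReal_sum_of_nonneg (fun j _ => mul_nonneg (hw0 j) (by positivity))]
    apply Finset.sum_congr rfl
    intro j _
    rw [ENNReal.ofReal_mul (hw0 j), ENNReal.ofReal_pow (norm_nonneg _), ofReal_norm]
  simp_rw [h1]
  rw [lintegral_finsetSum' _ (fun j _ => by
    have := (E_meas k (hc j)).comp (measurable_id.prodMk (measurable_const (a := t)))
    exact ((this.enorm.pow_const 2).const_mul _).aemeasurable)]
  have h2 : ∀ j ∈ J, ∫⁻ y : Fin k → ℝ, ENNReal.ofReal (w j) * ‖E k (c j) (y, t)‖ₑ ^ 2 ≤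
      ENNReal.ofReal (∫ η, w j * ‖c j η‖ ^ 2 ∂(cube k)) := by
    intro j hj
    rw [lintegral_const_mul' _ _ ENNReal.ofReal_ne_top, integral_const_mul,
      ENNReal.ofReal_mul (hw0 j)]
    gcongr
    exact E_L2 k (hc j) (c_bound hw hA hj) t
  refine (Finset.sum_le_sum h2).trans ?_
  rw [← ENNReal.ofReal_sum_of_nonneg (fun j _ => integral_nonneg fun η =>
    mul_nonneg (hw0 j) (by positivity)), ← integral_finsetSum _ hI]
  have h3 : ∫ η, ∑ j ∈ J, w j * ‖c j η‖ ^ 2 ∂(cube k) ≤ A2 * (cube k).real B := by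
    calc ∫ η, ∑ j ∈ J, w j * ‖c j η‖ ^ 2 ∂(cube k)
        ≤ ∫ η, B.indicator (fun _ => A2) η ∂(cube k) := by
          apply integral_mono (integrable_finsetSum _ hI)
            ((integrable_const A2).indicator hB)
          intro η
          by_cases h : η ∈ B
          · rw [indicator_of_mem h]
            exact hA η
          · rw [indicator_of_notMem h]
            apply le_of_eq
            apply Finset.sum_eq_zero
            intro j hj
            rw [hsupp j hj η h, norm_zero]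
            ring
      _ = A2 * (cube k).real B := by
          rw [integral_indicator hB, setIntegral_const, smul_eq_mul, mul_comm]
  refine (ENNReal.ofReal_le_ofReal h3).trans (le_of_eq ?_)
  rw [ENNReal.ofReal_mul hA0, Measure.real, ENNReal.ofReal_toReal (measure_ne_top _ _)]

end Pool.Agent.H.MP_b7167f_an.IR
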