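import Mathlib
import Pool.Agent.H.MP_b7167f_an.IR.N2B

/-!
Estimate for finite sums with coefficients supported in a set of rough frequencies.
-/

namespace Pool.Agent.H.MP_b7167f_an.IR

open MeasureTheory Complex ComplexConjugate Real Set ENNReal Pool.Agent.H.MP_b7167f_an

/-- normalized estimate for finite sums, coefficients supported in `B` -/
lemma finite_est_one_B {m k : ℕ} (hk : 1 ≤ k) {w : (Fin m → ℤ) → ℝ} (hw : ∀ j, 1 ≤ w j)
    {ρ : ℝ} (hρ : 0 < ρ) (hS : Summable fun j => w j ^ (-ρ)) {θ : ℝ} (h0 : 0 < θ) (h1 : θ < 1)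
    (h : 1 < (m + 1) * θ) (hρθ : (ρ - 1) * θ < 1) :
    ∃ C : ℝ≥0∞, C ≠ ⊤ ∧ ∀ (J : Finset (Fin m → ℤ)) (c : (Fin m → ℤ) → (Fin k → ℝ) → ℂ)
      (B : Set (Fin k → ℝ)), (∀ j, Measurable (c j)) → MeasurableSet B →
      (∀ η, ∑ j ∈ J, w j * ‖c j η‖ ^ 2 ≤ 1) → (∀ j ∈ J, ∀ η ∉ B, c j η = 0) →
      ∫⁻ p, ‖FF m k J c p‖ₑ ^ (2 + 2 * θ) ≤ C * cube k B := by
  obtain ⟨C1, hC1, hS1⟩ := S1 hw hρ hS (q := 2 + 2 * θ) (by linarith) (by linarith)
  obtain ⟨γ, β, hγ, hβ0, hβ1, hμ⟩ := exists_exponents (M := m) h0 h1 h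
  obtain ⟨K3, hK3, hL4⟩ := L4_ib k hk hβ0 hβ1
  set K1 : ℝ≥0∞ := ENNReal.ofReal ((4 ^ m * (4 ^ k * 1)) ^ θ * 2 ^ m) * ENNReal.ofReal 1
    with hK1
  set K2 : ℝ≥0∞ := ∫⁻ t in {t : ℝ | 1 ≤ |t|}, ENNReal.ofReal (|t| ^ (-γ)) with hK2
  refine ⟨K1 * 2 + ENNReal.ofReal C1 * (K2 * ENNReal.ofReal 1 +
    ENNReal.ofReal (1 ^ 2) * K3), ?_, ?_⟩
  · have t1 : K1 ≠ ⊤ := ENNReal.mul_ne_top ENNReal.ofReal_ne_top ENNReal.ofReal_ne_top
    have t2 : K2 ≠ ⊤ := (lint_tail hγ).ne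
    exact ENNReal.add_ne_top.mpr ⟨ENNReal.mul_ne_top t1 (by simp),
      ENNReal.mul_ne_top ENNReal.ofReal_ne_top (ENNReal.add_ne_top.mpr
        ⟨ENNReal.mul_ne_top t2 ENNReal.ofReal_ne_top, ENNReal.mul_ne_top ENNReal.ofReal_ne_top hK3⟩)⟩
  intro J c B hc1 hB hA hsupp
  have hFm : Measurable fun p => ‖FF m k J c p‖ₑ ^ (2 + 2 * θ) :=
    ((FF_meas J hc1).enorm).pow_const _
  have hN := N2_meas (w := w) hc1 J
  rw [lint_iter hFm]
  have hsplit : (univ : Set ℝ) = {t : ℝ | |t| < 1} ∪ {t : ℝ | 1 ≤ |t|} := by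
    ext t; simp [lt_or_ge]
  rw [← setLIntegral_univ, hsplit]
  have eC : (K1 * 2 + ENNReal.ofReal C1 * (K2 * ENNReal.ofReal 1 +
      ENNReal.ofReal (1 ^ 2) * K3)) * cube k B = K1 * cube k B * 2 +
      ENNReal.ofReal C1 * (K2 * (ENNReal.ofReal 1 * cube k B) +
      ENNReal.ofReal (1 ^ 2) * (K3 * cube k B)) := by ring
  rw [eC]
  refine (lintegral_union_le _ _ _).trans (add_le_add ?_ ?_)
  · -- small t
    have hb : ∀ t : ℝ, ∫⁻ y : Fin k → ℝ, ∫⁻ x : Fin m → ℝ, ‖FF m k J c ((x, y), t)‖ₑ ^ (2 + 2 * θ) ≤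
        K1 * cube k B := by
      intro t
      calc _ ≤ ∫⁻ y : Fin k → ℝ, ENNReal.ofReal ((4 ^ m * (4 ^ k * 1)) ^ θ * 2 ^ m) *
            ENNReal.ofReal (N2 k w c J (y, t)) :=
            lintegral_mono fun y => slice_small hw h0 J hc1 one_pos hA y t
        _ ≤ K1 * cube k B := by
            rw [lintegral_const_mul' _ _ ENNReal.ofReal_ne_top, hK1, mul_assoc]
            gcongr
            exact N2_L2_B hw hc1 zero_le_one hA hB hsupp t
    calc _ ≤ ∫⁻ _t in {t : ℝ | |t| < 1}, K1 * cube k B := lintegral_mono fun t => hb t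
      _ = K1 * cube k B * 2 := by
          rw [setLIntegral_const]
          congr 1
          have : {t : ℝ | |t| < 1} = Ioo (-1) 1 := by
            ext t
            rw [Set.mem_ofPred_eq, abs_lt]
            rfl
          rw [this, Real.volume_Ioo]
          norm_num
  · -- large t
    have hb : ∀ (t : ℝ), 1 ≤ |t| → ∀ y : Fin k → ℝ,
        ∫⁻ x : Fin m → ℝ, ‖FF m k J c ((x, y), t)‖ₑ ^ (2 + 2 * θ) ≤
        ENNReal.ofReal C1 * (ENNReal.ofReal (|t| ^ (-γ)) * ENNReal.ofReal (N2 k w c J (y, t)) +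
          ENNReal.ofReal (|t| ^ (-β)) * ENNReal.ofReal (N2 k w c J (y, t)) ^ 2) := by
      intro t ht y
      have htp : 0 < |t| := by linarith
      have ht0 : t ≠ 0 := abs_pos.mp htp
      have hn0 := N2_nonneg hw c J (y, t)
      simp_rw [FF_eq]
      refine (hS1 J (fun j => E k (c j) (y, t)) t ht0).trans ?_
      have e1 : (2 + 2 * θ) / 2 = 1 + θ := by ring
      have e2 : (m : ℝ) * (2 + 2 * θ - 2) / 2 = m * θ := by ring
      rw [e1, e2]
      have hy := young h0 h1 htp hn0 hμ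
      rw [← ENNReal.ofReal_mul (by positivity), ← ENNReal.ofReal_pow hn0,
        ← ENNReal.ofReal_mul (by positivity), ← ENNReal.ofReal_add (by positivity) (by positivity),
        ← ENNReal.ofReal_mul hC1]
      apply ENNReal.ofReal_le_ofReal
      rw [mul_assoc]
      exact mul_le_mul_of_nonneg_left hy hC1
    have hmset : MeasurableSet {t : ℝ | 1 ≤ |t|} := measurableSet_le measurable_const measurable_norm
    have hcf : cube k B ≠ ⊤ := measure_ne_top _ _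
    calc _ ≤ ∫⁻ t in {t : ℝ | 1 ≤ |t|}, ∫⁻ y : Fin k → ℝ,
          ENNReal.ofReal C1 * (ENNReal.ofReal (|t| ^ (-γ)) * ENNReal.ofReal (N2 k w c J (y, t)) +
          ENNReal.ofReal (|t| ^ (-β)) * ENNReal.ofReal (N2 k w c J (y, t)) ^ 2) :=
          setLIntegral_mono' hmset fun t ht => lintegral_mono fun y => hb t ht y
      _ = ENNReal.ofReal C1 * ((∫⁻ t in {t : ℝ | 1 ≤ |t|}, ENNReal.ofReal (|t| ^ (-γ)) *
            ∫⁻ y : Fin k → ℝ, ENNReal.ofReal (N2 k w c J (y, t))) +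
          ∫⁻ t in {t : ℝ | 1 ≤ |t|}, ∫⁻ y : Fin k → ℝ,
          ENNReal.ofReal (|t| ^ (-β)) * ENNReal.ofReal (N2 k w c J (y, t)) ^ 2) := by
          have hm1 : ∀ t : ℝ, Measurable fun y : Fin k → ℝ =>
              ENNReal.ofReal (N2 k w c J (y, t)) := fun t =>
            (hN.comp (measurable_id.prodMk measurable_const)).ennreal_ofReal
          rw [← lintegral_add_left]
          · rw [← lintegral_const_mul' _ _ ENNReal.ofReal_ne_top]
            apply lintegral_congr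
            intro t
            rw [lintegral_const_mul' _ _ ENNReal.ofReal_ne_top,
              lintegral_add_left ((hm1 t).const_mul _),
              lintegral_const_mul' _ _ ENNReal.ofReal_ne_top]
          · have hm2 : Measurable fun t : ℝ => ENNReal.ofReal (|t| ^ (-γ)) := by fun_prop
            apply hm2.mul
            apply Measurable.lintegral_prod_right' (f := fun q : ℝ × (Fin k → ℝ) =>
              ENNReal.ofReal (N2 k w c J (q.2, q.1)))
            exact (hN.comp (measurable_snd.prodMk measurable_fst)).ennreal_ofReal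
      _ ≤ _ := by
          gcongr
          · rw [hK2, ← lintegral_mul_const' _ _ (ENNReal.mul_ne_top ENNReal.ofReal_ne_top hcf)]
            apply lintegral_mono
            intro t
            simp only
            gcongr
            exact N2_L2_B hw hc1 zero_le_one hA hB hsupp t
          · refine le_trans ?_ ((N2_L4_B hw hc1 hA hB hsupp hβ0).trans
              (mul_le_mul' le_rfl (hL4 B hB)))
            rw [Measure.volume_eq_prod (Fin k → ℝ) ℝ, lintegral_prod_symm']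
            · exact setLIntegral_le_lintegral _ _
            · have hm3 : Measurable fun p : (Fin k → ℝ) × ℝ => ENNReal.ofReal (|p.2| ^ (-β)) := by
                fun_prop
              exact hm3.mul (hN.ennreal_ofReal.pow_const 2)

/-- estimate for finite sums, coefficients supported in `B` -/
lemma finite_est_B {m k : ℕ} (hk : 1 ≤ k) {w : (Fin m → ℤ) → ℝ} (hw : ∀ j, 1 ≤ w j)
    {ρ : ℝ} (hρ : 0 < ρ) (hS : Summable fun j => w j ^ (-ρ)) {θ : ℝ} (h0 : 0 < θ) (h1 : θ < 1)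
    (h : 1 < (m + 1) * θ) (hρθ : (ρ - 1) * θ < 1) :
    ∃ C : ℝ≥0∞, C ≠ ⊤ ∧ ∀ (J : Finset (Fin m → ℤ)) (c : (Fin m → ℤ) → (Fin k → ℝ) → ℂ)
      (B : Set (Fin k → ℝ)) (A : ℝ), 0 < A → (∀ j, Measurable (c j)) → MeasurableSet B →
      (∀ η, ∑ j ∈ J, w j * ‖c j η‖ ^ 2 ≤ A ^ 2) → (∀ j ∈ J, ∀ η ∉ B, c j η = 0) →
      ∫⁻ p, ‖FF m k J c p‖ₑ ^ (2 + 2 * θ) ≤ ENNReal.ofReal A ^ (2 + 2 * θ) * (C * cube k B) := by
  obtain ⟨C, hC, hmain⟩ := finite_est_one_B (m := m) hk hw hρ hS h0 h1 h hρθ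
  refine ⟨C, hC, ?_⟩
  intro J c B A hA0 hc1 hB hA hsupp
  have hq0 : 0 < 2 + 2 * θ := by linarith
  set c' : (Fin m → ℤ) → (Fin k → ℝ) → ℂ := fun j η => ((A⁻¹ : ℝ) : ℂ) * c j η with hc'
  have hc1' : ∀ j, Measurable (c' j) := fun j => (hc1 j).const_mul _
  have hA' : ∀ η, ∑ j ∈ J, w j * ‖c' j η‖ ^ 2 ≤ 1 := by
    intro η
    have e : ∀ j, w j * ‖c' j η‖ ^ 2 = (A ^ 2)⁻¹ * (w j * ‖c j η‖ ^ 2) := by
      intro j
      rw [hc', norm_mul, Complex.norm_real, Real.norm_of_nonneg (by positivity), mul_pow, inv_pow]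
      ring
    simp_rw [e]
    rw [← Finset.mul_sum, ← div_eq_inv_mul, div_le_one (by positivity)]
    exact hA η
  have hsupp' : ∀ j ∈ J, ∀ η ∉ B, c' j η = 0 := by
    intro j hj η hη
    rw [hc']
    simp only
    rw [hsupp j hj η hη, mul_zero]
  have hb := hmain J c' B hc1' hB hA' hsupp'
  have e1 : ∀ p, ‖FF m k J c p‖ₑ ^ (2 + 2 * θ) =
      ENNReal.ofReal A ^ (2 + 2 * θ) * ‖FF m k J c' p‖ₑ ^ (2 + 2 * θ) := by
    intro p
    rw [← ENNReal.mul_rpow_of_nonneg _ _ hq0.le]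
    congr 1
    rw [hc', FF_smul, enorm_mul]
    have : ‖((A⁻¹ : ℝ) : ℂ)‖ₑ = (ENNReal.ofReal A)⁻¹ := by
      rw [← ofReal_norm, Complex.norm_real, Real.norm_of_nonneg (by positivity),
        ENNReal.ofReal_inv_of_pos hA0]
    rw [this, ← mul_assoc, ENNReal.mul_inv_cancel (by simpa using hA0) ENNReal.ofReal_ne_top,
      one_mul]
  simp_rw [e1]
  rw [lintegral_const_mul' _ _ (by
    apply ENNReal.rpow_ne_top_of_nonneg hq0.le ENNReal.ofReal_ne_top)]
  gcongr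

end Pool.Agent.H.MP_b7167f_an.IR
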