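import Mathlib
import Pool.Agent.H.MP_b7167f_an.IR.CoreB

/-!
Decomposition into the level sets of the weighted square sum of the coefficients.
-/

namespace Pool.Agent.H.MP_b7167f_an.IR

open MeasureTheory Complex ComplexConjugate Real Set ENNReal Pool.Agent.H.MP_b7167f_an

variable {m k : ℕ}

/-- weighted square sum -/
noncomputable def bb (w : (Fin m → ℤ) → ℝ) (c : (Fin m → ℤ) → (Fin k → ℝ) → ℂ)
    (J : Finset (Fin m → ℤ)) (η : Fin k → ℝ) : ℝ := ∑ j ∈ J, w j * ‖c j η‖ ^ 2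

lemma bb_nonneg {w : (Fin m → ℤ) → ℝ} (hw : ∀ j, 1 ≤ w j) (c : (Fin m → ℤ) → (Fin k → ℝ) → ℂ)
    (J : Finset (Fin m → ℤ)) (η : Fin k → ℝ) : 0 ≤ bb w c J η :=
  Finset.sum_nonneg fun j _ => mul_nonneg (le_trans zero_le_one (hw j)) (by positivity)

lemma bb_meas {w : (Fin m → ℤ) → ℝ} {c : (Fin m → ℤ) → (Fin k → ℝ) → ℂ}
    (hc : ∀ j, Measurable (c j)) (J : Finset (Fin m → ℤ)) : Measurable (bb w c J) := by
  unfold bb
  apply Finset.measurable_sum
  intro j _
  exact ((hc j).norm.pow_const 2).const_mul _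

/-- sublevel sets -/
def Eb (b : (Fin k → ℝ) → ℝ) (A : ℝ) (n : ℕ) : Set (Fin k → ℝ) := {η | b η ≤ (2 ^ n * A) ^ 2}

/-- level sets -/
def Lb (b : (Fin k → ℝ) → ℝ) (A : ℝ) : ℕ → Set (Fin k → ℝ)
  | 0 => Eb b A 0
  | n + 1 => Eb b A (n + 1) \ Eb b A n

lemma Eb_meas {b : (Fin k → ℝ) → ℝ} (hb : Measurable b) (A : ℝ) (n : ℕ) :
    MeasurableSet (Eb b A n) := measurableSet_le hb measurable_const

lemma Lb_meas {b : (Fin k → ℝ) → ℝ} (hb : Measurable b) (A : ℝ) (n : ℕ) :
    MeasurableSet (Lb b A n) := by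
  cases n with
  | zero => exact Eb_meas hb A 0
  | succ n => exact (Eb_meas hb A (n + 1)).diff (Eb_meas hb A n)

lemma Lb_sub (b : (Fin k → ℝ) → ℝ) (A : ℝ) (n : ℕ) : Lb b A n ⊆ Eb b A n := by
  cases n with
  | zero => exact subset_rfl
  | succ n => exact sdiff_subset

lemma Eb_mono {b : (Fin k → ℝ) → ℝ} {A : ℝ} (hA : 0 ≤ A) (n : ℕ) : Eb b A n ⊆ Eb b A (n + 1) := by
  intro η hη
  have h1 : b η ≤ (2 ^ n * A) ^ 2 := hη
  show b η ≤ (2 ^ (n + 1) * A) ^ 2
  refine h1.trans (pow_le_pow_left₀ (by positivity) ?_ 2)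
  rw [pow_succ]
  nlinarith [mul_nonneg (pow_nonneg (by norm_num : (0 : ℝ) ≤ 2) n) hA]

/-- truncation of the coefficients -/
noncomputable def cB (c : (Fin m → ℤ) → (Fin k → ℝ) → ℂ) (B : Set (Fin k → ℝ)) :
    (Fin m → ℤ) → (Fin k → ℝ) → ℂ := fun j => B.indicator (c j)

lemma cB_meas {c : (Fin m → ℤ) → (Fin k → ℝ) → ℂ} (hc : ∀ j, Measurable (c j))
    {B : Set (Fin k → ℝ)} (hB : MeasurableSet B) (j : Fin m → ℤ) : Measurable (cB c B j) :=
  (hc j).indicator hB

lemma cB_norm (c : (Fin m → ℤ) → (Fin k → ℝ) → ℂ) (B : Set (Fin k → ℝ)) (j : Fin m → ℤ)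
    (η : Fin k → ℝ) : ‖cB c B j η‖ ≤ ‖c j η‖ := norm_indicator_le_norm_self _ _

lemma FF_add_of {J : Finset (Fin m → ℤ)} {c c1 c2 : (Fin m → ℤ) → (Fin k → ℝ) → ℂ} {M : ℝ}
    (h1 : ∀ j, Measurable (c1 j)) (h2 : ∀ j, Measurable (c2 j)) (hM1 : ∀ j ∈ J, ∀ η, ‖c1 j η‖ ≤ M)
    (hM2 : ∀ j ∈ J, ∀ η, ‖c2 j η‖ ≤ M) (h : ∀ j η, c j η = c1 j η + c2 j η)
    (p : ((Fin m → ℝ) × (Fin k → ℝ)) × ℝ) :
    FF m k J c p = FF m k J c1 p + FF m k J c2 p := by
  unfold FF
  rw [← Finset.sum_add_distrib]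
  apply Finset.sum_congr rfl
  intro j hj
  rw [← add_mul]
  congr 1
  rw [E_def, E_def, E_def, ← integral_add]
  · apply integral_congr_ae
    refine Filter.Eventually.of_forall fun η => ?_
    simp only
    rw [h j η, add_mul]
  · refine Integrable.of_bound (C := M) ((h1 j).mul
      (measurable_chr measurable_const measurable_par)).aestronglyMeasurable ?_
    refine Filter.Eventually.of_forall fun η => ?_
    rw [norm_mul, norm_chr, mul_one]
    exact hM1 j hj η
  · refine Integrable.of_bound (C := M) ((h2 j).mul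
      (measurable_chr measurable_const measurable_par)).aestronglyMeasurable ?_
    refine Filter.Eventually.of_forall fun η => ?_
    rw [norm_mul, norm_chr, mul_one]
    exact hM2 j hj η

lemma FF_levels {J : Finset (Fin m → ℤ)} {c : (Fin m → ℤ) → (Fin k → ℝ) → ℂ} {M : ℝ}
    (hc : ∀ j, Measurable (c j)) (hM : ∀ j ∈ J, ∀ η, ‖c j η‖ ≤ M) {b : (Fin k → ℝ) → ℝ}
    (hb : Measurable b) {A : ℝ} (hA : 0 ≤ A) (N : ℕ) :
    FF m k J (cB c (Eb b A N)) = ∑ n ∈ Finset.range (N + 1), FF m k J (cB c (Lb b A n)) := by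
  induction N with
  | zero => rw [Finset.sum_range_one]; rfl
  | succ N ih =>
    rw [Finset.sum_range_succ, ← ih]
    ext p
    rw [Pi.add_apply]
    apply FF_add_of (M := M) (cB_meas hc (Eb_meas hb A N)) (cB_meas hc (Lb_meas hb A (N + 1)))
      (fun j hj η => (cB_norm c _ j η).trans (hM j hj η))
      (fun j hj η => (cB_norm c _ j η).trans (hM j hj η))
    intro j η
    unfold cB
    have hmono := Eb_mono (b := b) hA N
    by_cases h1 : η ∈ Eb b A N
    · rw [indicator_of_mem (hmono h1), indicator_of_mem h1, indicator_of_notMem, add_zero]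
      exact fun h2 => h2.2 h1
    · by_cases h2 : η ∈ Eb b A (N + 1)
      · rw [indicator_of_mem h2, indicator_of_notMem h1,
          indicator_of_mem (show η ∈ Lb b A (N + 1) from ⟨h2, h1⟩), zero_add]
      · rw [indicator_of_notMem h2, indicator_of_notMem h1, indicator_of_notMem, add_zero]
        exact fun h3 => h2 h3.1

lemma Lb_measure {b : (Fin k → ℝ) → ℝ} (hb : Measurable b) {A p : ℝ} (hA : 0 < A) (hp : 0 < p)
    (hint : ∫⁻ η, ENNReal.ofReal (b η) ^ (p / 2) ∂(cube k) ≤ ENNReal.ofReal A ^ p) (n : ℕ) :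
    cube k (Lb b A n) ≤ (ENNReal.ofReal (2 ^ k) + ENNReal.ofReal (2 ^ p)) *
      ENNReal.ofReal (2 ^ (-p)) ^ n := by
  cases n with
  | zero =>
    rw [pow_zero, mul_one]
    refine le_trans ?_ le_self_add
    refine (measure_mono (subset_univ _)).trans (le_of_eq ?_)
    rw [← cube_real_univ k, Measure.real, ENNReal.ofReal_toReal (measure_ne_top _ _)]
  | succ n =>
    refine le_trans ?_ (mul_le_mul' le_add_self le_rfl)
    have hpos : 0 < (2 : ℝ) ^ n * A := by positivity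
    -- Markov
    have h1 : ENNReal.ofReal (2 ^ n * A) ^ p * cube k (Lb b A (n + 1)) ≤ ENNReal.ofReal A ^ p := by
      refine le_trans ?_ hint
      calc ENNReal.ofReal (2 ^ n * A) ^ p * cube k (Lb b A (n + 1))
          = ∫⁻ _η in Lb b A (n + 1), ENNReal.ofReal (2 ^ n * A) ^ p ∂(cube k) := by
            rw [setLIntegral_const]
        _ ≤ ∫⁻ η in Lb b A (n + 1), ENNReal.ofReal (b η) ^ (p / 2) ∂(cube k) := by
            apply setLIntegral_mono' (Lb_meas hb A (n + 1))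
            intro η hη
            have h2 : (2 ^ n * A) ^ 2 < b η := not_le.1 hη.2
            have h3 : ENNReal.ofReal (2 ^ n * A) ^ p =
                ENNReal.ofReal ((2 ^ n * A) ^ 2) ^ (p / 2) := by
              rw [ENNReal.ofReal_pow hpos.le, ← ENNReal.rpow_natCast, ← ENNReal.rpow_mul]
              congr 1
              push_cast
              ring
            rw [h3]
            exact ENNReal.rpow_le_rpow (ENNReal.ofReal_le_ofReal h2.le) (by linarith)
        _ ≤ _ := setLIntegral_le_lintegral _ _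
    rw [ENNReal.ofReal_mul (by positivity), ENNReal.mul_rpow_of_nonneg _ _ hp.le] at h1
    have hAp0 : ENNReal.ofReal A ^ p ≠ 0 := by
      rw [Ne, ENNReal.rpow_eq_zero_iff]
      rintro (⟨h2, -⟩ | ⟨-, h2⟩)
      · exact (ENNReal.ofReal_pos.2 hA).ne' h2
      · linarith
    have hApt : ENNReal.ofReal A ^ p ≠ ⊤ := ENNReal.rpow_ne_top_of_nonneg hp.le ENNReal.ofReal_ne_top
    have h2 : ENNReal.ofReal (2 ^ n) ^ p * cube k (Lb b A (n + 1)) ≤ 1 := by
      have h3 : ENNReal.ofReal A ^ p * (ENNReal.ofReal (2 ^ n) ^ p * cube k (Lb b A (n + 1))) ≤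
          ENNReal.ofReal A ^ p * 1 := by
        rw [mul_one]
        refine le_trans (le_of_eq ?_) h1
        ring
      exact (ENNReal.mul_le_mul_iff_right hAp0 hApt).1 h3
    have e1 : ENNReal.ofReal (2 ^ n) ^ p = ENNReal.ofReal (2 ^ p) ^ n := by
      rw [ENNReal.ofReal_rpow_of_pos (by positivity), ← ENNReal.ofReal_pow (by positivity)]
      congr 1
      rw [← Real.rpow_natCast, ← Real.rpow_natCast, ← Real.rpow_mul (by norm_num),
        ← Real.rpow_mul (by norm_num), mul_comm]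
    rw [e1] at h2
    have e2 : ENNReal.ofReal (2 ^ p) * ENNReal.ofReal (2 ^ (-p)) = 1 := by
      rw [← ENNReal.ofReal_mul (by positivity), ← Real.rpow_add (by norm_num)]
      simp
    calc cube k (Lb b A (n + 1)) = (ENNReal.ofReal (2 ^ p) * ENNReal.ofReal (2 ^ (-p))) ^ n *
          cube k (Lb b A (n + 1)) := by rw [e2, one_pow, one_mul]
      _ = ENNReal.ofReal (2 ^ (-p)) ^ n * (ENNReal.ofReal (2 ^ p) ^ n *
          cube k (Lb b A (n + 1))) := by
          rw [mul_pow]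
          ring
      _ ≤ ENNReal.ofReal (2 ^ (-p)) ^ n * 1 := by gcongr
      _ = (ENNReal.ofReal (2 ^ p) * ENNReal.ofReal (2 ^ (-p))) * ENNReal.ofReal (2 ^ (-p)) ^ n := by
          rw [e2]
          ring
      _ = ENNReal.ofReal (2 ^ p) * ENNReal.ofReal (2 ^ (-p)) ^ (n + 1) := by
          rw [pow_succ]
          ring

/-- The estimate for finite sums and exponent `2 + 2θ`. -/
lemma finite_Lp {m k : ℕ} (hk : 1 ≤ k) {w : (Fin m → ℤ) → ℝ} (hw : ∀ j, 1 ≤ w j)
    {ρ : ℝ} (hρ : 0 < ρ) (hS : Summable fun j => w j ^ (-ρ)) {θ : ℝ} (h0 : 0 < θ) (h1 : θ < 1)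
    (h : 1 < (m + 1) * θ) (hρθ : (ρ - 1) * θ < 1) {p : ℝ} (hp : 2 + 2 * θ < p) :
    ∃ D : ℝ≥0∞, D ≠ ⊤ ∧ ∀ (J : Finset (Fin m → ℤ)) (c : (Fin m → ℤ) → (Fin k → ℝ) → ℂ)
      (A M : ℝ), 0 < A → (∀ j, Measurable (c j)) → (∀ j ∈ J, ∀ η, ‖c j η‖ ≤ M) →
      ∫⁻ η, ENNReal.ofReal (bb w c J η) ^ (p / 2) ∂(cube k) ≤ ENNReal.ofReal A ^ p →
      eLpNorm (FF m k J c) (ENNReal.ofReal (2 + 2 * θ)) volume ≤ ENNReal.ofReal A * D := by
  obtain ⟨C, hC, hmain⟩ := finite_est_B (m := m) hk hw hρ hS h0 h1 h hρθ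
  set q0 : ℝ := 2 + 2 * θ with hq0d
  have hq0 : 0 < q0 := by linarith
  have hp0 : 0 < p := by linarith
  set K : ℝ≥0∞ := ENNReal.ofReal (2 ^ k) + ENNReal.ofReal (2 ^ p) with hK
  have hKt : K ≠ ⊤ := ENNReal.add_ne_top.2 ⟨ENNReal.ofReal_ne_top, ENNReal.ofReal_ne_top⟩
  set s : ℝ≥0∞ := ENNReal.ofReal (2 ^ (1 - p / q0)) with hs
  have hs1 : s < 1 := by
    rw [hs, ← ENNReal.ofReal_one]
    apply (ENNReal.ofReal_lt_ofReal_iff one_pos).2
    apply Real.rpow_lt_one_of_one_lt_of_neg (by norm_num)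
    rw [sub_neg, lt_div_iff₀ hq0]
    linarith
  refine ⟨(C * K) ^ (1 / q0) * (1 - s)⁻¹, ENNReal.mul_ne_top
    (ENNReal.rpow_ne_top_of_nonneg (by positivity) (ENNReal.mul_ne_top hC hKt))
    (ENNReal.inv_ne_top.2 (tsub_pos_of_lt hs1).ne'), ?_⟩
  intro J c A M hA hc hM hint
  set b := bb w c J with hb
  have hbm : Measurable b := bb_meas hc J
  -- the last level
  obtain ⟨N, hN⟩ : ∃ N : ℕ, ∀ η, b η ≤ (2 ^ N * A) ^ 2 := by
    set Q : ℝ := ∑ j ∈ J, w j * M ^ 2 with hQ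
    have hbQ : ∀ η, b η ≤ Q := by
      intro η
      apply Finset.sum_le_sum
      intro j hj
      apply mul_le_mul_of_nonneg_left _ (le_trans zero_le_one (hw j))
      exact pow_le_pow_left₀ (norm_nonneg _) (hM j hj η) 2
    obtain ⟨N, hN⟩ := pow_unbounded_of_one_lt (√(max Q 0) / A) (by norm_num : (1 : ℝ) < 2)
    refine ⟨N, fun η => ?_⟩
    have h2 : √(max Q 0) ≤ 2 ^ N * A := by
      rw [div_lt_iff₀ hA] at hN
      exact hN.le
    calc b η ≤ max Q 0 := (hbQ η).trans (le_max_left _ _)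
      _ = √(max Q 0) ^ 2 := (Real.sq_sqrt (le_max_right _ _)).symm
      _ ≤ (2 ^ N * A) ^ 2 := pow_le_pow_left₀ (Real.sqrt_nonneg _) h2 2
  have hcc : cB c (Eb b A N) = c := by
    ext j η
    unfold cB
    exact indicator_of_mem (show η ∈ Eb b A N from hN η) _
  have hFF : FF m k J c = ∑ n ∈ Finset.range (N + 1), FF m k J (cB c (Lb b A n)) := by
    have h2 := FF_levels hc hM hbm hA.le N
    rw [hcc] at h2
    exact h2
  have hterm : ∀ n : ℕ, eLpNorm (FF m k J (cB c (Lb b A n))) (ENNReal.ofReal q0) volume ≤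
      ENNReal.ofReal A * (C * K) ^ (1 / q0) * s ^ n := by
    intro n
    have hpos : 0 < (2 : ℝ) ^ n * A := by positivity
    have h2 := hmain J (cB c (Lb b A n)) (Lb b A n) (2 ^ n * A) hpos
      (cB_meas hc (Lb_meas hbm A n)) (Lb_meas hbm A n) (by
        intro η
        by_cases hη : η ∈ Lb b A n
        · have h3 : ∀ j, cB c (Lb b A n) j η = c j η := fun j => indicator_of_mem hη _
          simp_rw [h3]
          exact Lb_sub b A n hη
        · have h3 : ∀ j, cB c (Lb b A n) j η = 0 := fun j => indicator_of_notMem hη _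
          simp_rw [h3]
          simp
          positivity) (by
        intro j _ η hη
        exact indicator_of_notMem hη _)
    have h4 := Lb_measure hbm hA hp0 hint n
    rw [eLpNorm_eq_lintegral_rpow_enorm_toReal (by simpa using hq0) ENNReal.ofReal_ne_top,
      ENNReal.toReal_ofReal hq0.le]
    calc (∫⁻ x, ‖FF m k J (cB c (Lb b A n)) x‖ₑ ^ q0) ^ (1 / q0)
        ≤ (ENNReal.ofReal (2 ^ n * A) ^ q0 *
            (C * (K * ENNReal.ofReal (2 ^ (-p)) ^ n))) ^ (1 / q0) := by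
          apply ENNReal.rpow_le_rpow _ (by positivity)
          refine h2.trans ?_
          gcongr
      _ = ENNReal.ofReal (2 ^ n * A) * ((C * K) ^ (1 / q0) *
            (ENNReal.ofReal (2 ^ (-p)) ^ n) ^ (1 / q0)) := by
          rw [← mul_assoc C, ENNReal.mul_rpow_of_nonneg _ _ (by positivity),
            ← ENNReal.rpow_mul, mul_one_div_cancel hq0.ne', ENNReal.rpow_one,
            ENNReal.mul_rpow_of_nonneg _ _ (by positivity)]
      _ = ENNReal.ofReal A * (C * K) ^ (1 / q0) * (ENNReal.ofReal (2 ^ n) *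
            (ENNReal.ofReal (2 ^ (-p)) ^ n) ^ (1 / q0)) := by
          rw [ENNReal.ofReal_mul (by positivity)]
          ring
      _ = ENNReal.ofReal A * (C * K) ^ (1 / q0) * s ^ n := by
          congr 1
          have hr0 : (0 : ℝ) ≤ 2 ^ (-p) := by positivity
          have hr1 : (0 : ℝ) < (2 ^ (-p)) ^ n := by positivity
          have hr2 : (0 : ℝ) ≤ 2 ^ (1 - p / q0) := by positivity
          have hr3 : (0 : ℝ) ≤ 2 ^ n := by positivity
          have e1 : ENNReal.ofReal (2 ^ (-p)) ^ n = ENNReal.ofReal ((2 ^ (-p)) ^ n) :=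
            (ENNReal.ofReal_pow hr0 n).symm
          have e2 : s ^ n = ENNReal.ofReal ((2 ^ (1 - p / q0)) ^ n) := by
            rw [hs, ENNReal.ofReal_pow hr2]
          rw [e1, e2, ENNReal.ofReal_rpow_of_pos hr1, ← ENNReal.ofReal_mul hr3]
          congr 1
          rw [← Real.rpow_natCast, ← Real.rpow_natCast, ← Real.rpow_natCast,
            ← Real.rpow_mul hr0, ← Real.rpow_mul zero_le_two,
            ← Real.rpow_mul zero_le_two, ← Real.rpow_add two_pos]
          congr 1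
          field_simp
          ring
  rw [hFF]
  refine (eLpNorm_sum_le (fun n _ => (FF_meas J
    (cB_meas hc (Lb_meas hbm A n))).aestronglyMeasurable) ?_).trans ?_
  · rw [← ENNReal.ofReal_one]
    exact ENNReal.ofReal_le_ofReal (by linarith)
  · calc ∑ n ∈ Finset.range (N + 1), eLpNorm (FF m k J (cB c (Lb b A n))) (ENNReal.ofReal q0) volume
        ≤ ∑ n ∈ Finset.range (N + 1), ENNReal.ofReal A * (C * K) ^ (1 / q0) * s ^ n :=
          Finset.sum_le_sum fun n _ => hterm n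
      _ ≤ ∑' n : ℕ, ENNReal.ofReal A * (C * K) ^ (1 / q0) * s ^ n := ENNReal.sum_le_tsum _
      _ = ENNReal.ofReal A * ((C * K) ^ (1 / q0) * (1 - s)⁻¹) := by
          rw [ENNReal.tsum_mul_left, ENNReal.tsum_geometric]
          ring

end Pool.Agent.H.MP_b7167f_an.IR
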