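import Mathlib
import Pool.Agent.H.MP_b7167f_an.IR.Lev

/-!
The extension estimate with an `L^p` norm in the rough variables.
-/

namespace Pool.Agent.H.MP_b7167f_an.IR

open MeasureTheory Complex ComplexConjugate Real Set ENNReal Pool.Agent.H.MP_b7167f_an

variable {m k : ℕ}

lemma FF_int {J : Finset (Fin m → ℤ)} {c : (Fin m → ℤ) → (Fin k → ℝ) → ℂ} {M : ℝ}
    (hcm : ∀ j, Measurable (c j)) (hM : ∀ j ∈ J, ∀ η, ‖c j η‖ ≤ M)
    (p : ((Fin m → ℝ) × (Fin k → ℝ)) × ℝ) :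
    FF m k J c p = ∫ η, (∑ j ∈ J, c j η * E m (hc j) (p.1.1, p.2)) *
      chr (p.1.2, p.2) (par η) ∂(cube k) := by
  unfold FF
  simp_rw [Finset.sum_mul]
  rw [integral_finsetSum]
  · apply Finset.sum_congr rfl
    intro j _
    rw [E_def k (c j), ← integral_mul_const]
    congr 1
    ext η
    ring
  · intro j hj
    have hms : Measurable fun η => c j η * E m (hc j) (p.1.1, p.2) *
        chr (p.1.2, p.2) (par η) :=
      ((hcm j).mul_const _).mul (measurable_chr measurable_const measurable_par)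
    refine Integrable.of_bound hms.aestronglyMeasurable (M * ‖E m (hc j) (p.1.1, p.2)‖) ?_
    refine Filter.Eventually.of_forall fun η => ?_
    rw [norm_mul, norm_chr, mul_one, norm_mul]
    exact mul_le_mul_of_nonneg_right (hM j hj η) (norm_nonneg _)

lemma sqrt_le_aux {b A p : ℝ} (hb : 0 ≤ b) (hA : 0 < A) (hp : 1 ≤ p) :
    √b ≤ A + A ^ (1 - p) * b ^ (p / 2) := by
  have h0 : 0 ≤ A ^ (1 - p) * b ^ (p / 2) := by positivity
  by_cases h : √b ≤ A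
  · linarith
  · have h1 : 1 ≤ √b / A := by
      rw [le_div_iff₀ hA, one_mul]
      exact (not_le.1 h).le
    have h2 : √b / A ≤ (√b / A) ^ p := by
      calc √b / A = (√b / A) ^ (1 : ℝ) := (Real.rpow_one _).symm
        _ ≤ (√b / A) ^ p := Real.rpow_le_rpow_of_exponent_le h1 hp
    have h3 : A * (√b / A) ^ p = A ^ (1 - p) * b ^ (p / 2) := by
      rw [Real.div_rpow (Real.sqrt_nonneg _) hA.le, Real.sqrt_eq_rpow, ← Real.rpow_mul hb,
        Real.rpow_sub hA, Real.rpow_one]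
      have e : 1 / 2 * p = p / 2 := by ring
      rw [e]
      field_simp
    have h4 : √b = A * (√b / A) := by field_simp
    have h5 := mul_le_mul_of_nonneg_left h2 hA.le
    rw [h3, ← h4] at h5
    linarith

lemma FF_sup_L1 {w : (Fin m → ℤ) → ℝ} (hw : ∀ j, 1 ≤ w j) {J : Finset (Fin m → ℤ)}
    {c : (Fin m → ℤ) → (Fin k → ℝ) → ℂ} {M A p : ℝ} (hA : 0 < A) (hp : 1 ≤ p)
    (hcm : ∀ j, Measurable (c j)) (hM : ∀ j ∈ J, ∀ η, ‖c j η‖ ≤ M)
    (hint : ∫⁻ η, ENNReal.ofReal (bb w c J η) ^ (p / 2) ∂(cube k) ≤ ENNReal.ofReal A ^ p)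
    (x : ((Fin m → ℝ) × (Fin k → ℝ)) × ℝ) :
    ‖FF m k J c x‖ ≤ 2 ^ m * ((2 ^ k + 1) * A) := by
  have hp0 : 0 < p := by linarith
  set b := bb w c J with hb
  have hbm : Measurable b := bb_meas hcm J
  have hb0 : ∀ η, 0 ≤ b η := bb_nonneg hw c J
  obtain ⟨Q, hQ⟩ : ∃ Q : ℝ, ∀ η, b η ≤ Q := by
    refine ⟨∑ j ∈ J, w j * M ^ 2, fun η => ?_⟩
    apply Finset.sum_le_sum
    intro j hj
    apply mul_le_mul_of_nonneg_left _ (le_trans zero_le_one (hw j))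
    exact pow_le_pow_left₀ (norm_nonneg _) (hM j hj η) 2
  have hbi : Integrable (fun η => b η ^ (p / 2)) (cube k) := by
    refine Integrable.of_bound (hbm.pow_const _).aestronglyMeasurable (Q ^ (p / 2)) ?_
    refine Filter.Eventually.of_forall fun η => ?_
    rw [Real.norm_of_nonneg (Real.rpow_nonneg (hb0 η) _)]
    exact Real.rpow_le_rpow (hb0 η) (hQ η) (by linarith)
  have hsi : Integrable (fun η => A + A ^ (1 - p) * b η ^ (p / 2)) (cube k) :=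
    (integrable_const A).add (hbi.const_mul _)
  have h1 : ∫ η, b η ^ (p / 2) ∂(cube k) ≤ A ^ p := by
    rw [← ENNReal.ofReal_le_ofReal_iff (by positivity), ofReal_integral_eq_lintegral_ofReal hbi
      (Filter.Eventually.of_forall fun η => Real.rpow_nonneg (hb0 η) _)]
    have e1 : ∀ η, ENNReal.ofReal (b η ^ (p / 2)) = ENNReal.ofReal (b η) ^ (p / 2) := fun η =>
      (ENNReal.ofReal_rpow_of_nonneg (hb0 η) (by linarith)).symm
    simp_rw [e1]
    rw [← ENNReal.ofReal_rpow_of_nonneg hA.le hp0.le]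
    exact hint
  -- pointwise bound
  have hpt : ∀ η, ‖(∑ j ∈ J, c j η * E m (hc j) (x.1.1, x.2)) * chr (x.1.2, x.2) (par η)‖ ≤
      2 ^ m * (A + A ^ (1 - p) * b η ^ (p / 2)) := by
    intro η
    rw [norm_mul, norm_chr, mul_one]
    have h2 : ‖∑ j ∈ J, c j η * E m (hc j) (x.1.1, x.2)‖ ≤
        √(∑ j ∈ J, ‖c j η‖ ^ 2) * √(∑ j ∈ J, ‖E m (hc j) (x.1.1, x.2)‖ ^ 2) := by
      refine (norm_sum_le _ _).trans ?_
      simp_rw [norm_mul]
      exact Real.sum_mul_le_sqrt_mul_sqrt J _ _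
    have h3 : √(∑ j ∈ J, ‖c j η‖ ^ 2) ≤ √(b η) := by
      apply Real.sqrt_le_sqrt
      rw [hb]
      unfold bb
      apply Finset.sum_le_sum
      intro j _
      nlinarith [mul_nonneg (sub_nonneg.mpr (hw j)) (sq_nonneg ‖c j η‖)]
    have h4 : √(∑ j ∈ J, ‖E m (hc j) (x.1.1, x.2)‖ ^ 2) ≤ 2 ^ m := by
      rw [Real.sqrt_le_left (by positivity)]
      have e : ((2 : ℝ) ^ m) ^ 2 = 4 ^ m := by
        rw [← pow_mul, mul_comm, pow_mul]
        norm_num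
      rw [e]
      exact E_hc_sq_sum J (x.1.1, x.2)
    calc ‖∑ j ∈ J, c j η * E m (hc j) (x.1.1, x.2)‖ ≤ √(b η) * 2 ^ m :=
          h2.trans (mul_le_mul h3 h4 (Real.sqrt_nonneg _) (Real.sqrt_nonneg _))
      _ ≤ (A + A ^ (1 - p) * b η ^ (p / 2)) * 2 ^ m :=
          mul_le_mul_of_nonneg_right (sqrt_le_aux (hb0 η) hA hp) (by positivity)
      _ = _ := mul_comm _ _
  rw [FF_int hcm hM]
  refine (norm_integral_le_of_norm_le (hsi.const_mul _)
    (Filter.Eventually.of_forall hpt)).trans ?_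
  rw [integral_const_mul]
  apply mul_le_mul_of_nonneg_left _ (by positivity)
  rw [integral_add (integrable_const A) (hbi.const_mul _), integral_const, cube_real_univ,
    smul_eq_mul, integral_const_mul]
  have h5 := mul_le_mul_of_nonneg_left h1 (Real.rpow_nonneg hA.le (1 - p))
  have h6 : A ^ (1 - p) * A ^ p = A := by
    rw [← Real.rpow_add hA]
    simp
  rw [h6] at h5
  linarith

/-- The estimate for finite sums and all exponents. -/
lemma finite_Lq (hk : 1 ≤ k) {w : (Fin m → ℤ) → ℝ} (hw : ∀ j, 1 ≤ w j)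
    {ρ : ℝ} (hρ : 0 < ρ) (hS : Summable fun j => w j ^ (-ρ)) {θ : ℝ} (h0 : 0 < θ) (h1 : θ < 1)
    (h : 1 < (m + 1) * θ) (hρθ : (ρ - 1) * θ < 1) {p q : ℝ} (hp : 2 + 2 * θ < p)
    (hq : 2 + 2 * θ ≤ q) :
    ∃ D : ℝ≥0∞, D ≠ ⊤ ∧ ∀ (J : Finset (Fin m → ℤ)) (c : (Fin m → ℤ) → (Fin k → ℝ) → ℂ)
      (A M : ℝ), 0 < A → (∀ j, Measurable (c j)) → (∀ j ∈ J, ∀ η, ‖c j η‖ ≤ M) →
      ∫⁻ η, ENNReal.ofReal (bb w c J η) ^ (p / 2) ∂(cube k) ≤ ENNReal.ofReal A ^ p →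
      ∫⁻ x, ‖FF m k J c x‖ₑ ^ q ≤ ENNReal.ofReal A ^ q * D := by
  obtain ⟨D, hD, hmain⟩ := finite_Lp (m := m) hk hw hρ hS h0 h1 h hρθ hp
  set q0 : ℝ := 2 + 2 * θ with hq0d
  have hq0 : 0 < q0 := by linarith
  set G : ℝ := 2 ^ m * (2 ^ k + 1) with hG
  have hG0 : 0 < G := by positivity
  refine ⟨ENNReal.ofReal (G ^ (q - q0)) * D ^ q0, ENNReal.mul_ne_top ENNReal.ofReal_ne_top
    (ENNReal.rpow_ne_top_of_nonneg hq0.le hD), ?_⟩
  intro J c A M hA hcm hM hint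
  have hb := hmain J c A M hA hcm hM hint
  rw [eLpNorm_eq_lintegral_rpow_enorm_toReal (by simpa using hq0) ENNReal.ofReal_ne_top,
    ENNReal.toReal_ofReal hq0.le] at hb
  have hb2 : ∫⁻ x, ‖FF m k J c x‖ₑ ^ q0 ≤ (ENNReal.ofReal A * D) ^ q0 := by
    have h2 := ENNReal.rpow_le_rpow hb hq0.le
    rwa [← ENNReal.rpow_mul, one_div_mul_cancel hq0.ne', ENNReal.rpow_one] at h2
  have hsup : ∀ x, ‖FF m k J c x‖ ^ 2 ≤ (G * A) ^ 2 := by
    intro x
    apply pow_le_pow_left₀ (norm_nonneg _)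
    have := FF_sup_L1 hw hA (by linarith) hcm hM hint x
    rw [hG]
    linarith
  have h3 := interp2 (μ := (volume : Measure (((Fin m → ℝ) × (Fin k → ℝ)) × ℝ)))
    (F := FF m k J c) (q0 := q0) hq0 hq (b := (G * A) ^ 2) (by positivity) hsup
  refine h3.trans ?_
  have e1 : ((G * A) ^ 2) ^ ((q - q0) / 2) = G ^ (q - q0) * A ^ (q - q0) := by
    rw [← Real.rpow_natCast (G * A) 2, ← Real.rpow_mul (by positivity),
      ← Real.mul_rpow hG0.le hA.le]
    congr 1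
    push_cast
    ring
  rw [e1]
  calc ENNReal.ofReal (G ^ (q - q0) * A ^ (q - q0)) * ∫⁻ x, ‖FF m k J c x‖ₑ ^ q0
      ≤ ENNReal.ofReal (G ^ (q - q0) * A ^ (q - q0)) * (ENNReal.ofReal A * D) ^ q0 := by gcongr
    _ = (ENNReal.ofReal A ^ (q - q0) * ENNReal.ofReal A ^ q0) *
        (ENNReal.ofReal (G ^ (q - q0)) * D ^ q0) := by
        rw [ENNReal.ofReal_mul (by positivity), ENNReal.mul_rpow_of_nonneg _ _ hq0.le,
          ENNReal.ofReal_rpow_of_nonneg hA.le (by linarith : 0 ≤ q - q0)]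
        ring
    _ = ENNReal.ofReal A ^ q * (ENNReal.ofReal (G ^ (q - q0)) * D ^ q0) := by
        rw [← ENNReal.rpow_add _ _ (ENNReal.ofReal_pos.2 hA).ne' ENNReal.ofReal_ne_top]
        congr 2
        ring

lemma bessel_coef {f : (Fin m → ℝ) × (Fin k → ℝ) → ℂ} (hf : Measurable f) {M : ℝ}
    (hM : ∀ ξ, ‖f ξ‖ ≤ M) (η : Fin k → ℝ) (J : Finset (Fin m → ℤ)) :
    ∑ j ∈ J, 1 * ‖coef f j η‖ ^ 2 ≤ (2 ^ m * M) ^ 2 := by
  have hM0 : 0 ≤ M := (norm_nonneg _).trans (hM 0)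
  have hu : Measurable fun ξ : Fin m → ℝ => f (ξ, η) :=
    hf.comp (measurable_id.prodMk measurable_const)
  have h := parseval (u := fun ξ => f (ξ, η)) (v := fun ξ => conj (f (ξ, η)))
    hu (Complex.continuous_conj.measurable.comp hu) (fun ξ => hM _) (M' := M)
    (fun ξ => by rw [Complex.norm_conj]; exact hM _)
  have e1 : ∀ j : Fin m → ℤ, (∫ ξ, f (ξ, η) * conj (hc j ξ) ∂(cube m)) *
      (∫ ξ, conj (f (ξ, η)) * hc j ξ ∂(cube m)) = ((‖coef f j η‖ ^ 2 : ℝ) : ℂ) := by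
    intro j
    have e2 : ∫ ξ, conj (f (ξ, η)) * hc j ξ ∂(cube m) =
        conj (∫ ξ, f (ξ, η) * conj (hc j ξ) ∂(cube m)) := by
      rw [← integral_conj]
      congr 1
      ext ξ
      rw [map_mul, Complex.conj_conj]
    rw [e2, ← coef_eq, Complex.mul_conj']
    push_cast
    rfl
  simp_rw [e1] at h
  have e3 : (2 : ℂ) ^ m * ∫ ξ, f (ξ, η) * conj (f (ξ, η)) ∂(cube m) =
      ((2 ^ m * ∫ ξ, ‖f (ξ, η)‖ ^ 2 ∂(cube m) : ℝ) : ℂ) := by
    rw [Complex.ofReal_mul, ← integral_complex_ofReal]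
    congr 1
    · push_cast
      rfl
    · congr 1
      ext ξ
      rw [Complex.mul_conj']
      push_cast
      rfl
  rw [e3] at h
  have h4 : HasSum (fun j : Fin m → ℤ => ‖coef f j η‖ ^ 2)
      (2 ^ m * ∫ ξ, ‖f (ξ, η)‖ ^ 2 ∂(cube m)) := by
    exact_mod_cast h
  have h5 : ∑ j ∈ J, ‖coef f j η‖ ^ 2 ≤ 2 ^ m * ∫ ξ, ‖f (ξ, η)‖ ^ 2 ∂(cube m) :=
    sum_le_hasSum J (fun j _ => by positivity) h4
  simp_rw [one_mul]
  refine h5.trans ?_
  have h6 : ∫ ξ, ‖f (ξ, η)‖ ^ 2 ∂(cube m) ≤ 2 ^ m * M ^ 2 := by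
    calc ∫ ξ, ‖f (ξ, η)‖ ^ 2 ∂(cube m) ≤ ∫ _ξ, M ^ 2 ∂(cube m) := by
          apply integral_mono
          · refine Integrable.of_bound (hu.norm.pow_const 2).aestronglyMeasurable (M ^ 2) ?_
            refine Filter.Eventually.of_forall fun ξ => ?_
            rw [Real.norm_of_nonneg (by positivity)]
            exact pow_le_pow_left₀ (norm_nonneg _) (hM _) 2
          · exact integrable_const _
          · intro ξ
            exact pow_le_pow_left₀ (norm_nonneg _) (hM _) 2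
      _ = 2 ^ m * M ^ 2 := by rw [integral_const, cube_real_univ, smul_eq_mul]
  calc 2 ^ m * ∫ ξ, ‖f (ξ, η)‖ ^ 2 ∂(cube m) ≤ 2 ^ m * (2 ^ m * M ^ 2) :=
        mul_le_mul_of_nonneg_left h6 (by positivity)
    _ = (2 ^ m * M) ^ 2 := by ring

/-- choice of the exponent -/
lemma exists_theta_pq (hm : 1 ≤ m) {ρ : ℝ} (hρm : ρ < m + 2) {p q : ℝ}
    (hp : 2 * (m + 2) / (m + 1) < p) (hq : 2 * (m + 2) / (m + 1) < q) :
    ∃ θ : ℝ, 0 < θ ∧ θ < 1 ∧ 1 < ((m : ℝ) + 1) * θ ∧ (ρ - 1) * θ < 1 ∧ 2 + 2 * θ < p ∧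
      2 + 2 * θ ≤ q := by
  obtain ⟨r, hr1, hr2⟩ := exists_between (lt_min hp hq)
  obtain ⟨θ, h0, h1, h2, h3, h4⟩ := exists_theta hm hρm hr1
  exact ⟨θ, h0, h1, h2, h3, lt_of_le_of_lt h4 (lt_of_lt_of_le hr2 (min_le_left _ _)),
    h4.trans (hr2.le.trans (min_le_right _ _))⟩

/-- Main estimate. -/
theorem main_Lp (m k : ℕ) (hm : 1 ≤ m) (hk : 1 ≤ k) (W : (Fin m → ℤ) → ℝ)
    (hW : ∀ j, 1 ≤ W j) (ρ : ℝ) (hρ : 0 < ρ) (hρm : ρ < m + 2)
    (hS : Summable fun j => W j ^ (-ρ)) (p q : ℝ) (hp : 2 * (m + 2) / (m + 1) < p)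
    (hq : 2 * (m + 2) / (m + 1) < q) :
    ∃ C : ℝ, 0 ≤ C ∧ ∀ f : (Fin m → ℝ) × (Fin k → ℝ) → ℂ, Measurable f →
      (∃ M : ℝ, ∀ ξ, ‖f ξ‖ ≤ M) → ∀ A : ℝ, 0 ≤ A →
      (∀ J : Finset (Fin m → ℤ), ∫⁻ η in Icc (-1 : Fin k → ℝ) 1,
        ENNReal.ofReal (∑ j ∈ J, W j * ‖coef f j η‖ ^ 2) ^ (p / 2) ≤ ENNReal.ofReal A ^ p) →
      eLpNorm (extension m k f) (ENNReal.ofReal q) volume ≤ ENNReal.ofReal (C * A) := by
  obtain ⟨θ, h0, h1, h2, h3, h4, h5⟩ := exists_theta_pq hm hρm hp hq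
  obtain ⟨D, hD, hfin⟩ := finite_Lq (m := m) hk hW hρ hS h0 h1 h2 h3 h4 h5
  have hq0 : 0 < q := by linarith
  have hp0 : 0 < p := by linarith
  refine ⟨(D ^ (1 / q)).toReal, ENNReal.toReal_nonneg, ?_⟩
  rintro f hf ⟨M, hM⟩ A hA0 hA
  have hM0 : 0 ≤ M := (norm_nonneg _).trans (hM 0)
  have hcm := fun j => coef_meas hf j
  have hbes := bessel_coef hf hM
  have hcb : ∀ j η, ‖coef f j η‖ ≤ 2 ^ m * M := by
    intro j η
    have h6 := hbes η {j}
    rw [Finset.sum_singleton, one_mul] at h6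
    exact le_of_sq_le_sq h6 (by positivity)
  have hlim := tendsto_FF hf hM (w := fun _ => 1) (fun _ => le_rfl) hcm hbes
    (Filter.Eventually.of_forall fun η j => rfl)
  have key : ∀ A' : ℝ, 0 < A' → A ≤ A' →
      eLpNorm (extension m k f) (ENNReal.ofReal q) volume ≤
        ENNReal.ofReal ((D ^ (1 / q)).toReal * A') := by
    intro A' hA' hAA
    have hb : ∀ n, ∫⁻ x, ‖FF m k (Jn m n) (coef f) x‖ₑ ^ q ≤ ENNReal.ofReal A' ^ q * D := by
      intro n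
      refine hfin (Jn m n) (coef f) A' (2 ^ m * M) hA' hcm (fun j _ η => hcb j η) ?_
      refine (hA (Jn m n)).trans ?_
      exact ENNReal.rpow_le_rpow (ENNReal.ofReal_le_ofReal hAA) hp0.le
    have hfatou : ∫⁻ x, ‖(2 : ℂ) ^ m * extension m k f x‖ₑ ^ q ≤ ENNReal.ofReal A' ^ q * D := by
      have e1 : ∀ x, ‖(2 : ℂ) ^ m * extension m k f x‖ₑ ^ q =
          Filter.liminf (fun n => ‖FF m k (Jn m n) (coef f) x‖ₑ ^ q) Filter.atTop := by
        intro x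
        have h6 : Filter.Tendsto (fun n => ‖FF m k (Jn m n) (coef f) x‖ₑ ^ q) Filter.atTop
            (nhds (‖(2 : ℂ) ^ m * extension m k f x‖ₑ ^ q)) :=
          (ENNReal.continuous_rpow_const.tendsto _).comp ((hlim x).enorm)
        exact h6.liminf_eq.symm
      simp_rw [e1]
      refine (lintegral_liminf_le fun n => ((FF_meas (Jn m n) hcm).enorm).pow_const q).trans ?_
      refine (Filter.liminf_le_liminf (Filter.Eventually.of_forall fun n => hb n)).trans ?_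
      simp
    rw [eLpNorm_eq_lintegral_rpow_enorm_toReal (by simpa using hq0) ENNReal.ofReal_ne_top,
      ENNReal.toReal_ofReal hq0.le]
    have h7 : ∫⁻ x, ‖extension m k f x‖ₑ ^ q ≤ ENNReal.ofReal A' ^ q * D := by
      refine (lintegral_mono fun x => ?_).trans hfatou
      simp only
      gcongr
      rw [enorm_mul]
      have h8 : (1 : ℝ≥0∞) ≤ ‖(2 : ℂ) ^ m‖ₑ := by
        rw [← ofReal_norm, norm_pow, ← ENNReal.ofReal_one]
        apply ENNReal.ofReal_le_ofReal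
        simp
        exact one_le_pow₀ (by norm_num)
      calc ‖extension m k f x‖ₑ = 1 * ‖extension m k f x‖ₑ := (one_mul _).symm
        _ ≤ _ := by gcongr
    calc _ ≤ (ENNReal.ofReal A' ^ q * D) ^ (1 / q) := ENNReal.rpow_le_rpow h7 (by positivity)
      _ = ENNReal.ofReal A' * D ^ (1 / q) := by
        rw [ENNReal.mul_rpow_of_nonneg _ _ (by positivity), ← ENNReal.rpow_mul,
          mul_one_div_cancel hq0.ne', ENNReal.rpow_one]
      _ = ENNReal.ofReal ((D ^ (1 / q)).toReal * A') := by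
        rw [mul_comm, ENNReal.ofReal_mul ENNReal.toReal_nonneg, ENNReal.ofReal_toReal
          (ENNReal.rpow_ne_top_of_nonneg (by positivity) hD)]
  have h9 := (tendsto_one_div_add_atTop_nhds_zero_nat (𝕜 := ℝ)).const_add A
  rw [add_zero] at h9
  refine ge_of_tendsto' (ENNReal.tendsto_ofReal (h9.const_mul ((D ^ (1 / q)).toReal)))
    fun n => key _ ?_ ?_
  · have : 0 < 1 / ((n : ℝ) + 1) := by positivity
    linarith
  · have : 0 < 1 / ((n : ℝ) + 1) := by positivity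
    linarith

end Pool.Agent.H.MP_b7167f_an.IR
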